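import Pool.Agent.Helper29.OT.St

set_option autoImplicit false

namespace Pool.Agent.Helper36.OT

open Finset Pool.Agent.Helper14.FEM Pool.Agent.Helper3.EMK Pool.Agent.Helper29.TK Pool.Agent.Helper29.OT

theorem BT_desc (m n : ℕ) (h : m ≤ n) (k : ℕ) :
    m.descFactorial k * n ^ k ≤ m ^ k * n.descFactorial k := by
  induction k with
  | zero => simp
  | succ k ih =>
    rw [Nat.descFactorial_succ, Nat.descFactorial_succ, pow_succ, pow_succ]
    have h1 : (m - k) * n ≤ m * (n - k) := by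
      rw [Nat.sub_mul, Nat.mul_sub]
      have : m * k ≤ k * n := by rw [mul_comm]; exact Nat.mul_le_mul_left k h
      omega
    calc (m - k) * m.descFactorial k * (n ^ k * n) = ((m - k) * n) * (m.descFactorial k * n ^ k) := by ring
      _ ≤ (m * (n - k)) * (m ^ k * n.descFactorial k) := Nat.mul_le_mul h1 ih
      _ = m ^ k * m * ((n - k) * n.descFactorial k) := by ring

theorem BT_upper (m n k : ℕ) (h : m ≤ n) (hn : 0 < n) :
    (m.choose k : ℝ) ≤ ((m : ℝ) / n) ^ k * n.choose k := by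
  have h1 := BT_desc m n h k
  rw [Nat.descFactorial_eq_factorial_mul_choose, Nat.descFactorial_eq_factorial_mul_choose] at h1
  have hf : 0 < Nat.factorial k := Nat.factorial_pos k
  have h2 : m.choose k * n ^ k ≤ m ^ k * n.choose k := by
    apply Nat.le_of_mul_le_mul_left _ hf
    calc Nat.factorial k * (m.choose k * n ^ k) = Nat.factorial k * m.choose k * n ^ k := by ring
      _ ≤ m ^ k * (Nat.factorial k * n.choose k) := h1
      _ = Nat.factorial k * (m ^ k * n.choose k) := by ring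
  have h3 : (m.choose k : ℝ) * (n : ℝ) ^ k ≤ (m : ℝ) ^ k * n.choose k := by exact_mod_cast h2
  have hn' : (0 : ℝ) < (n : ℝ) ^ k := by positivity
  rw [div_pow, div_mul_eq_mul_div, le_div_iff₀ hn']
  exact h3

theorem BT_lower (m n k : ℕ) (hn : 0 < n) :
    (((m + 1 - k : ℕ) : ℝ) / n) ^ k * n.choose k ≤ (m.choose k : ℝ) := by
  have h1 : (m + 1 - k) ^ k * n.descFactorial k ≤ m.descFactorial k * n ^ k :=
    Nat.mul_le_mul (Nat.pow_sub_le_descFactorial m k) (Nat.descFactorial_le_pow n k)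
  rw [Nat.descFactorial_eq_factorial_mul_choose, Nat.descFactorial_eq_factorial_mul_choose] at h1
  have hf : 0 < Nat.factorial k := Nat.factorial_pos k
  have h2 : (m + 1 - k) ^ k * n.choose k ≤ m.choose k * n ^ k := by
    apply Nat.le_of_mul_le_mul_left _ hf
    calc Nat.factorial k * ((m + 1 - k) ^ k * n.choose k)
        = (m + 1 - k) ^ k * (Nat.factorial k * n.choose k) := by ring
      _ ≤ Nat.factorial k * m.choose k * n ^ k := h1
      _ = Nat.factorial k * (m.choose k * n ^ k) := by ring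
  have h3 : ((m + 1 - k : ℕ) : ℝ) ^ k * n.choose k ≤ (m.choose k : ℝ) * (n : ℝ) ^ k := by exact_mod_cast h2
  have hn' : (0 : ℝ) < (n : ℝ) ^ k := by positivity
  rw [div_pow, div_mul_eq_mul_div, div_le_iff₀ hn']
  exact h3

theorem BT_pow (k : ℕ) (u v : ℝ) (hv : 0 ≤ v) (hvu : v ≤ u) (hu : u ≤ 1) :
    u ^ k - v ^ k ≤ k * (u - v) := by
  induction k with
  | zero => simp
  | succ k ih =>
    have h0 : 0 ≤ u := hv.trans hvu
    have hu1 : u ^ k ≤ 1 := pow_le_one₀ h0 hu
    have hv1 : v ≤ 1 := hvu.trans hu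
    have huk : 0 ≤ u ^ k := pow_nonneg h0 k
    have e : u ^ (k + 1) - v ^ (k + 1) = u ^ k * (u - v) + v * (u ^ k - v ^ k) := by ring
    rw [e]
    have h1 : u ^ k * (u - v) ≤ 1 * (u - v) := mul_le_mul_of_nonneg_right hu1 (by linarith)
    have h3 : 0 ≤ u ^ k - v ^ k := sub_nonneg.2 (pow_le_pow_left₀ hv hvu k)
    have h2 : v * (u ^ k - v ^ k) ≤ 1 * (u ^ k - v ^ k) := mul_le_mul_of_nonneg_right hv1 h3
    push_cast
    linarith

theorem hBT : StBT := by
  intro k n s hk hs hn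
  have hn0 : 0 < n := by
    have : 1 ≤ k * s := Nat.mul_pos (by omega) hs
    omega
  have hsn : s ≤ n := (Nat.le_mul_of_pos_left s (by omega)).trans hn
  have hkn : k ≤ n := (Nat.le_mul_of_pos_right k hs).trans hn
  have hnR : (0 : ℝ) < n := by exact_mod_cast hn0
  have hN : (0 : ℝ) < n.choose k := by exact_mod_cast Nat.choose_pos hkn
  have hkR : (2 : ℝ) ≤ k := by exact_mod_cast hk
  have hsR : (1 : ℝ) ≤ s := by exact_mod_cast hs
  have hksR : (k : ℝ) * s ≤ n := by exact_mod_cast hn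
  have hsnR : (s : ℝ) ≤ n := by exact_mod_cast hsn
  set N : ℝ := (n.choose k : ℝ) with hNdef
  have ha1 : (0 : ℝ) ≤ 1 - (s : ℝ) / n := by
    rw [sub_nonneg, div_le_one hnR]; exact hsnR
  have hb0 : 0 ≤ (k : ℝ) * s / n := by positivity
  have hb1 : (k : ℝ) * s / n ≤ 1 := by rw [div_le_one hnR]; exact hksR
  have hk5 : (k : ℝ) ≤ (k : ℝ) ^ 5 := by
    have : (1 : ℝ) ≤ (k : ℝ) ^ 4 := one_le_pow₀ (by linarith)
    nlinarith
  have hk52 : 2 * (k : ℝ) ^ 2 ≤ (k : ℝ) ^ 5 := by
    have h3 : (2 : ℝ) ^ 3 ≤ (k : ℝ) ^ 3 := pow_le_pow_left₀ (by norm_num) hkR 3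
    have h4 : (0 : ℝ) ≤ (k : ℝ) ^ 2 := by positivity
    nlinarith
  constructor
  · intro H
    have u1 := BT_upper (n - s + 1) n k (by omega) hn0
    have u2 := BT_upper (k * s - 1) n k (by omega) hn0
    have c1 : ((n - s + 1 : ℕ) : ℝ) / n = 1 - (s : ℝ) / n + 1 / n := by
      rw [Nat.cast_add, Nat.cast_sub hsn]
      field_simp
      push_cast
      ring
    have c2 : (((k * s - 1 : ℕ) : ℝ) / n) ^ k ≤ ((k : ℝ) * s / n) ^ k := by
      apply pow_le_pow_left₀ (by positivity)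
      apply div_le_div_of_nonneg_right _ hnR.le
      have : ((k * s - 1 : ℕ) : ℝ) ≤ ((k * s : ℕ) : ℝ) := by exact_mod_cast Nat.sub_le _ _
      push_cast at this
      exact this
    rw [c1] at u1
    have u3 : ((k * s - 1).choose k : ℝ) ≤ ((k : ℝ) * s / n) ^ k * N :=
      u2.trans (mul_le_mul_of_nonneg_right c2 hN.le)
    have u4 : (1 - (s : ℝ) / n + 1 / n) ^ k - (1 - (s : ℝ) / n) ^ k ≤ k * (1 - (s : ℝ) / n + 1 / n - (1 - (s : ℝ) / n)) := by
      apply BT_pow k _ _ ha1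
      · have : (0 : ℝ) ≤ 1 / n := by positivity
        linarith
      · have : (1 : ℝ) / n ≤ s / n := div_le_div_of_nonneg_right hsR hnR.le
        linarith
    have u5 : (1 - (s : ℝ) / n + 1 / n) ^ k ≤ (1 - (s : ℝ) / n) ^ k + k / n := by
      have e : (k : ℝ) * (1 - (s : ℝ) / n + 1 / n - (1 - (s : ℝ) / n)) = k / n := by ring
      linarith
    have u6 : (1 - ((1 - (s : ℝ) / n) ^ k + k / n) + 1000 * (k : ℝ) ^ 5 / n) * N ≤ ((k : ℝ) * s / n) ^ k * N := by
      have e1 : (1 - (s : ℝ) / n + 1 / n) ^ k * N ≤ ((1 - (s : ℝ) / n) ^ k + k / n) * N :=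
        mul_le_mul_of_nonneg_right u5 hN.le
      have e2 : (1 - ((1 - (s : ℝ) / n) ^ k + k / n) + 1000 * (k : ℝ) ^ 5 / n) * N
          = N - ((1 - (s : ℝ) / n) ^ k + k / n) * N + 1000 * (k : ℝ) ^ 5 / n * N := by ring
      rw [e2]
      linarith
    have u7 := le_of_mul_le_mul_right u6 hN
    have u8 : (k : ℝ) / n ≤ (k : ℝ) ^ 5 / n := div_le_div_of_nonneg_right hk5 hnR.le
    have e3 : 1000 * (k : ℝ) ^ 5 / n = 999 * (k : ℝ) ^ 5 / n + (k : ℝ) ^ 5 / n := by ring
    linarith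
  · intro H
    have l1 := BT_lower (n - s + 1) n k hn0
    have l2 := BT_lower (k * s - 1) n k hn0
    -- the second binomial
    have c2 : (((k * s - 1 + 1 - k : ℕ) : ℝ) / n) = (k : ℝ) * s / n - k / n := by
      have h1 : 1 ≤ k * s := Nat.mul_pos (by omega) hs
      have h2 : k * s - 1 + 1 - k = k * s - k := by omega
      rw [h2, Nat.cast_sub (Nat.le_mul_of_pos_right k hs)]
      push_cast
      ring
    rw [c2] at l2
    have d1 : 0 ≤ (k : ℝ) * s / n - k / n := by
      rw [← sub_div]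
      apply div_nonneg _ hnR.le
      nlinarith
    have p1 : ((k : ℝ) * s / n) ^ k - ((k : ℝ) * s / n - k / n) ^ k ≤ k * ((k : ℝ) * s / n - ((k : ℝ) * s / n - k / n)) := by
      apply BT_pow k _ _ d1 _ hb1
      have : (0 : ℝ) ≤ k / n := by positivity
      linarith
    have p2 : ((k : ℝ) * s / n) ^ k - (k : ℝ) ^ 2 / n ≤ ((k : ℝ) * s / n - k / n) ^ k := by
      have e : (k : ℝ) * ((k : ℝ) * s / n - ((k : ℝ) * s / n - k / n)) = (k : ℝ) ^ 2 / n := by ring
      linarith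
    -- the first binomial
    have p3 : (1 - (s : ℝ) / n) ^ k - (k : ℝ) ^ 2 / n ≤ (((n - s + 1 + 1 - k : ℕ) : ℝ) / n) ^ k := by
      by_cases hc : k ≤ n - s + 2
      · have c1 : (((n - s + 1 + 1 - k : ℕ) : ℝ) / n) = 1 - (s : ℝ) / n - (k - 2) / n := by
          have h2 : n - s + 1 + 1 - k = n - s + 2 - k := by omega
          rw [h2, Nat.cast_sub hc, Nat.cast_add, Nat.cast_sub hsn]
          push_cast
          field_simp
          ring
        rw [c1]
        have d2 : 0 ≤ 1 - (s : ℝ) / n - (k - 2) / n := by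
          rw [← c1]; positivity
        have d3 : (0 : ℝ) ≤ (k - 2) / n := div_nonneg (by linarith) hnR.le
        have d4 : 1 - (s : ℝ) / n ≤ 1 := by
          have : (0 : ℝ) ≤ s / n := by positivity
          linarith
        have q1 := BT_pow k (1 - (s : ℝ) / n) (1 - (s : ℝ) / n - (k - 2) / n) d2 (by linarith) d4
        have e : (k : ℝ) * (1 - (s : ℝ) / n - (1 - (s : ℝ) / n - (k - 2) / n)) = (k : ℝ) ^ 2 / n - 2 * k / n := by
          ring
        have e2 : (0 : ℝ) ≤ 2 * k / n := by positivity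
        linarith
      · push Not at hc
        have d1 : (1 - (s : ℝ) / n) ^ k ≤ (k : ℝ) ^ 2 / n := by
          have h1 : (1 - (s : ℝ) / n) ^ k ≤ (1 - (s : ℝ) / n) ^ 1 := by
            apply pow_le_pow_of_le_one ha1 _ (by omega)
            have : (0 : ℝ) ≤ s / n := by positivity
            linarith
          rw [pow_one] at h1
          refine h1.trans ?_
          have h2 : 1 - (s : ℝ) / n = ((n : ℝ) - s) / n := by field_simp
          rw [h2]
          apply div_le_div_of_nonneg_right _ hnR.le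
          have h3 : ((n - s : ℕ) : ℝ) ≤ k := by exact_mod_cast (by omega : n - s ≤ k)
          rw [Nat.cast_sub hsn] at h3
          nlinarith
        have d2 : (0 : ℝ) ≤ (((n - s + 1 + 1 - k : ℕ) : ℝ) / n) ^ k := by positivity
        linarith
    have m1 := mul_le_mul_of_nonneg_right p2 hN.le
    have m2 := mul_le_mul_of_nonneg_right p3 hN.le
    have u6 : (((k : ℝ) * s / n) ^ k - (k : ℝ) ^ 2 / n + 1000 * (k : ℝ) ^ 5 / n) * N ≤
        (1 - ((1 - (s : ℝ) / n) ^ k - (k : ℝ) ^ 2 / n)) * N := by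
      have e1 : (((k : ℝ) * s / n) ^ k - (k : ℝ) ^ 2 / n + 1000 * (k : ℝ) ^ 5 / n) * N
          = (((k : ℝ) * s / n) ^ k - (k : ℝ) ^ 2 / n) * N + 1000 * (k : ℝ) ^ 5 / n * N := by ring
      have e2 : (1 - ((1 - (s : ℝ) / n) ^ k - (k : ℝ) ^ 2 / n)) * N
          = N - ((1 - (s : ℝ) / n) ^ k - (k : ℝ) ^ 2 / n) * N := by ring
      rw [e1, e2]
      linarith
    have u7 := le_of_mul_le_mul_right u6 hN
    have u8 : 2 * (k : ℝ) ^ 2 / n ≤ (k : ℝ) ^ 5 / n := div_le_div_of_nonneg_right hk52 hnR.le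
    have e3 : 1000 * (k : ℝ) ^ 5 / n = 999 * (k : ℝ) ^ 5 / n + (k : ℝ) ^ 5 / n := by ring
    have e4 : 2 * (k : ℝ) ^ 2 / n = (k : ℝ) ^ 2 / n + (k : ℝ) ^ 2 / n := by ring
    linarith

end Pool.Agent.Helper36.OT
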